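import Pool.Agent.Helper42.PQ.Spec
import Pool.Agent.Helper42.PQ.Base

/-!
# PQ, part GRP: every configuration can be grouped
-/

set_option autoImplicit false
set_option linter.unusedSectionVars false

namespace Pool.Agent.Helper52.PQ.GRP

open Finset Pool.Agent.Helper42.PQ

variable {ι : Type} [Fintype ι] [DecidableEq ι] {d r : ℕ}

/-- the contribution of a letter count -/
def gv (W t : ℕ) : ℕ := if t = W then 2 else if 0 < t then 1 else 0

lemma gv_sum (M : Multiset ℕ) (W : ℕ) (hW : 0 < W) (hM : M.sum = W) :
    2 ≤ (M.map (gv W)).sum := by
  by_cases h : W ∈ M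
  · obtain ⟨M', rfl⟩ := Multiset.exists_cons_of_mem h
    rw [Multiset.map_cons, Multiset.sum_cons]
    have : gv W W = 2 := if_pos rfl
    omega
  · have h1 : ∃ t ∈ M, 0 < t := by
      by_contra hc
      push Not at hc
      have : M.sum = 0 := Multiset.sum_eq_zero (fun t ht => Nat.le_zero.1 (hc t ht))
      omega
    obtain ⟨t, ht, ht0⟩ := h1
    obtain ⟨M', rfl⟩ := Multiset.exists_cons_of_mem ht
    rw [Multiset.sum_cons] at hM
    have htW : t ≠ W := fun h' => h (h' ▸ Multiset.mem_cons_self _ _)
    have h2 : ∃ t ∈ M', 0 < t := by
      by_contra hc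
      push Not at hc
      have : M'.sum = 0 := Multiset.sum_eq_zero (fun t ht => Nat.le_zero.1 (hc t ht))
      omega
    obtain ⟨t', ht', ht0'⟩ := h2
    obtain ⟨M'', rfl⟩ := Multiset.exists_cons_of_mem ht'
    have htW' : t' ≠ W := fun h' =>
      h (h' ▸ Multiset.mem_cons_of_mem (Multiset.mem_cons_self _ _))
    simp only [Multiset.map_cons, Multiset.sum_cons]
    have e1 : gv W t = 1 := by unfold gv; rw [if_neg htW, if_pos ht0]
    have e2 : gv W t' = 1 := by unfold gv; rw [if_neg htW', if_pos ht0']
    omega

/-- completely used variables -/
def Fu (w : ι → ℕ) (m : ι → ℕ) : Finset ι := univ.filter fun v => m v = w v ∧ w v ≠ 0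

/-- shared variables -/
def Sh (w : ι → ℕ) (m : ι → ℕ) : Finset ι := univ.filter fun v => 0 < m v ∧ m v < w v

lemma mem_Fu {w m : ι → ℕ} {v : ι} : v ∈ Fu w m ↔ m v = w v ∧ w v ≠ 0 := by simp [Fu]

lemma mem_Sh {w m : ι → ℕ} {v : ι} : v ∈ Sh w m ↔ 0 < m v ∧ m v < w v := by simp [Sh]

lemma sum_gv (w m : ι → ℕ) :
    ∑ v ∈ sp w, gv (w v) (m v) ≤ 2 * (Fu w m).card + (Sh w m).card + 0 ∨ ∃ v, w v < m v := by
  by_cases h : ∃ v, w v < m v
  · exact Or.inr h
  · left
    push Not at h
    have e : ∀ v ∈ sp w, gv (w v) (m v) =
        2 * (if v ∈ Fu w m then 1 else 0) + (if v ∈ Sh w m then 1 else 0) := by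
      intro v hv
      rw [mem_sp] at hv
      have h1 := h v
      unfold gv
      simp only [mem_Fu, mem_Sh]
      by_cases h2 : m v = w v
      · rw [if_pos h2, if_pos ⟨h2, hv⟩, if_neg (by omega)]
      · rw [if_neg h2]
        by_cases h3 : 0 < m v
        · rw [if_pos h3, if_neg (fun h' => h2 h'.1), if_pos ⟨h3, by omega⟩]
        · rw [if_neg h3, if_neg (fun h' => h2 h'.1), if_neg (fun h' => h3 h'.1)]
    rw [Finset.sum_congr rfl e, Finset.sum_add_distrib, ← Finset.mul_sum,
      ← Finset.card_filter, ← Finset.card_filter]
    have h3 : ((sp w).filter fun v => v ∈ Fu w m).card ≤ (Fu w m).card := by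
      apply Finset.card_le_card
      intro v hv
      exact (Finset.mem_filter.1 hv).2
    have h4 : ((sp w).filter fun v => v ∈ Sh w m).card ≤ (Sh w m).card := by
      apply Finset.card_le_card
      intro v hv
      exact (Finset.mem_filter.1 hv).2
    omega

lemma card_Fu_Sh (m : G ι d (r + 1)) (w : ι → ℕ) :
    (Fu w m.1).card + (Sh w m.1).card ≤ r + 1 := by
  rw [← Finset.card_union_of_disjoint]
  · refine le_trans (Finset.card_le_card ?_) m.2.2
    intro v hv
    rw [Finset.mem_union, mem_Fu, mem_Sh] at hv
    simp only [Finset.mem_filter, Finset.mem_univ, true_and]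
    rcases hv with hv | hv
    · rw [hv.1]; exact hv.2
    · omega
  · rw [Finset.disjoint_left]
    intro v h1 h2
    rw [mem_Fu] at h1
    rw [mem_Sh] at h2
    omega

lemma Wt_apply {s : ℕ} (S : Multiset (G ι d s)) (v : ι) : Wt S v = (S.map fun m => m.1 v).sum := by
  induction S using Multiset.induction_on with
  | empty => simp [Wt_zero]
  | cons u S ih => rw [Wt_cons, Multiset.map_cons, Multiset.sum_cons, ← ih]; rfl

/-- existence of a good block -/
lemma exists_block (w : ι → ℕ) (S : Multiset (G ι d (r + 1))) (q : ℕ) (hq : 1 ≤ q)
    (hw : Wt S = w) (hc : (sp w).card = S.card * r + q) :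
    ∃ m ∈ S, ((Fu w m.1).card = r + 1 ∧ (Sh w m.1).card = 0) ∨
      ((Fu w m.1).card = r ∧ (Sh w m.1).card = 1) := by
  by_contra hcon
  push Not at hcon
  have h1 : ∀ m ∈ S, ∑ v ∈ sp w, gv (w v) (m.1 v) ≤ 2 * r := by
    intro m hm
    have h2 := card_Fu_Sh m w
    have h3 := hcon m hm
    rcases sum_gv w m.1 with h4 | ⟨v, hv⟩
    · omega
    · have := le_Wt hm v
      rw [hw] at this
      omega
  have h2 : (S.map fun m => ∑ v ∈ sp w, gv (w v) (m.1 v)).sum ≤ S.card * (2 * r) := by
    have := Multiset.sum_le_card_nsmul (S.map fun m => ∑ v ∈ sp w, gv (w v) (m.1 v)) (2 * r)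
      (by
        intro x hx
        obtain ⟨m, hm, rfl⟩ := Multiset.mem_map.1 hx
        exact h1 m hm)
    rwa [Multiset.card_map, smul_eq_mul] at this
  have h3 : (S.map fun m => ∑ v ∈ sp w, gv (w v) (m.1 v)).sum =
      ∑ v ∈ sp w, (S.map fun m => gv (w v) (m.1 v)).sum := by
    clear hw hc hcon h1 h2
    induction S using Multiset.induction_on with
    | empty => simp
    | cons u S ih =>
      simp only [Multiset.map_cons, Multiset.sum_cons]
      rw [Finset.sum_add_distrib, ih]
  have h4 : ∑ v ∈ sp w, 2 ≤ ∑ v ∈ sp w, (S.map fun m => gv (w v) (m.1 v)).sum := by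
    apply Finset.sum_le_sum
    intro v hv
    rw [mem_sp] at hv
    have := gv_sum (S.map fun m => m.1 v) (w v) (by omega) (by rw [← hw, Wt_apply])
    rw [Multiset.map_map] at this
    exact this
  rw [Finset.sum_const, smul_eq_mul] at h4
  rw [h3] at h2
  have h5 := h4.trans h2
  rw [hc] at h5
  have : (S.card * r + q) * 2 = S.card * (2 * r) + 2 * q := by ring
  omega

lemma main_aux (k : ℕ) : ∀ (q : ℕ) (w : ι → ℕ) (S : Multiset (G ι d (r + 1))), 1 ≤ q →
    S.card = k → Wt S = w → (sp w).card = k * r + q → ∃ ρ : ι → Fin q, Cf w ρ S := by
  induction k with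
  | zero =>
    intro q w S hq hS hw hc
    rw [Multiset.card_eq_zero] at hS
    rw [hS, Wt_zero] at hw
    rw [← hw] at hc
    simp [sp] at hc
    omega
  | succ k ih =>
    intro q w S hq hS hw hc
    obtain ⟨m, hm, hcase⟩ := exists_block w S q hq hw (by rw [hS]; exact hc)
    obtain ⟨S', rfl⟩ := Multiset.exists_cons_of_mem hm
    rw [Multiset.card_cons] at hS
    rw [Wt_cons] at hw
    have hwv : ∀ v, m.1 v + Wt S' v = w v := fun v => by rw [← hw]; rfl
    have hsp : sp (Wt S') = sp w \ Fu w m.1 := by
      ext v
      have := hwv v
      rw [mem_sp, Finset.mem_sdiff, mem_sp, mem_Fu]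
      constructor
      · intro h
        exact ⟨by omega, fun h' => by omega⟩
      · rintro ⟨h1, h2⟩ h3
        exact h2 ⟨by omega, h1⟩
    have hsub : Fu w m.1 ⊆ sp w := by
      intro v hv
      rw [mem_Fu] at hv
      rw [mem_sp]
      exact hv.2
    have hcard : (sp (Wt S')).card = (sp w).card - (Fu w m.1).card := by
      rw [hsp, Finset.card_sdiff_of_subset hsub]
    rcases Nat.eq_or_lt_of_le hq with hq1 | hq2
    · -- one class
      subst hq1
      refine ⟨fun _ => 0, fun _ => m ::ₘ S', ?_, ?_⟩
      · intro j
        constructor
        · rw [Wt_cons, hw]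
          funext i
          rw [if_pos (Subsingleton.elim _ _)]
        · rw [Wt_cons, hw, Multiset.card_cons, hS, hc]
      · simp
    · rcases hcase with ⟨hF, hH⟩ | ⟨hF, hH⟩
      · -- pure block
        obtain ⟨q', rfl⟩ : ∃ q', q = q' + 1 := ⟨q - 1, by omega⟩
        rw [Finset.card_eq_zero] at hH
        have hout : ∀ v, v ∉ Fu w m.1 → m.1 v = 0 := by
          intro v hv
          by_contra h0
          have h1 := hwv v
          have h2 : v ∈ Sh w m.1 := by
            rw [mem_Sh]
            rw [mem_Fu, not_and_or, not_not] at hv
            rcases hv with hv | hv <;> omega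
          rw [hH] at h2
          exact absurd h2 (Finset.notMem_empty _)
        obtain ⟨ρ, T, hT, hS'⟩ := ih q' (Wt S') S' (by omega) (by omega) rfl
          (by
            rw [hcard, hF, hc]
            have : (k + 1) * r = k * r + r := by ring
            omega)
        refine ⟨fun v => if v ∈ Fu w m.1 then Fin.last q' else (ρ v).castSucc,
          Fin.snoc T {m}, ?_, ?_⟩
        · intro j
          refine Fin.lastCases ?_ (fun j => ?_) j
          · rw [Fin.snoc_last, Wt_singleton]
            have e : m.1 = fun i => if (if i ∈ Fu w m.1 then Fin.last q' else (ρ i).castSucc) =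
                Fin.last q' then w i else 0 := by
              funext i
              by_cases hi : i ∈ Fu w m.1
              · rw [if_pos hi, if_pos rfl]
                exact (mem_Fu.1 hi).1
              · rw [if_neg hi, if_neg (Fin.castSucc_lt_last _).ne, hout i hi]
            refine ⟨e, ?_⟩
            have : sp m.1 = Fu w m.1 := by
              ext v
              rw [mem_sp]
              constructor
              · intro h
                by_contra h'
                exact h (hout v h')
              · intro h
                rw [mem_Fu] at h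
                rw [h.1]
                exact h.2
            rw [this, hF]
            simp
          · rw [Fin.snoc_castSucc]
            obtain ⟨h1, h2⟩ := hT j
            refine ⟨?_, h2⟩
            rw [h1]
            funext i
            have h3 := hwv i
            beta_reduce
            by_cases hi : i ∈ Fu w m.1
            · rw [if_pos hi, if_neg (Fin.castSucc_lt_last _).ne']
              have := (mem_Fu.1 hi).1
              split_ifs <;> omega
            · rw [if_neg hi]
              have h4 := hout i hi
              rw [h4, zero_add] at h3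
              rw [h3]
              by_cases hj : ρ i = j
              · rw [if_pos hj, if_pos (by rw [hj])]
              · rw [if_neg hj, if_neg (fun h => hj (Fin.castSucc_injective _ h))]
        · rw [Fin.sum_univ_castSucc, Fin.snoc_last]
          simp only [Fin.snoc_castSucc]
          rw [← hS', ← Multiset.singleton_add]
          exact add_comm _ _
      · -- one shared variable
        rw [Finset.card_eq_one] at hH
        obtain ⟨x, hx⟩ := hH
        have hxs : x ∈ Sh w m.1 := by rw [hx]; exact Finset.mem_singleton_self _
        have hxs' := mem_Sh.1 hxs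
        have hxF : x ∉ Fu w m.1 := by
          rw [mem_Fu]
          omega
        have hout : ∀ v, v ∉ Fu w m.1 → v ≠ x → m.1 v = 0 := by
          intro v hv hvx
          by_contra h0
          have h1 := hwv v
          have h2 : v ∈ Sh w m.1 := by
            rw [mem_Sh]
            rw [mem_Fu, not_and_or, not_not] at hv
            rcases hv with hv | hv <;> omega
          rw [hx, Finset.mem_singleton] at h2
          exact hvx h2
        obtain ⟨ρ, T, hT, hS'⟩ := ih q (Wt S') S' hq (by omega) rfl
          (by
            rw [hcard, hF, hc]
            have : (k + 1) * r = k * r + r := by ring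
            omega)
        refine ⟨fun v => if v ∈ Fu w m.1 then ρ x else ρ v,
          Function.update T (ρ x) (m ::ₘ T (ρ x)), ?_, ?_⟩
        · intro j
          by_cases hj : j = ρ x
          · rw [hj, Function.update_self, Wt_cons]
            obtain ⟨h1, h2⟩ := hT (ρ x)
            have e : m.1 + Wt (T (ρ x)) = fun i =>
                if (if i ∈ Fu w m.1 then ρ x else ρ i) = ρ x then w i else 0 := by
              rw [h1]
              funext i
              have h3 := hwv i
              show m.1 i + (if ρ i = ρ x then Wt S' i else 0) = _
              by_cases hi : i ∈ Fu w m.1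
              · rw [if_pos hi, if_pos rfl]
                have := (mem_Fu.1 hi).1
                split_ifs <;> omega
              · rw [if_neg hi]
                by_cases hix : i = x
                · rw [hix] at h3 ⊢
                  rw [if_pos rfl, if_pos rfl, h3]
                · rw [hout i hi hix, zero_add] at h3 ⊢
                  rw [h3]
            refine ⟨e, ?_⟩
            rw [e]
            have h4 : sp (fun i => if (if i ∈ Fu w m.1 then ρ x else ρ i) = ρ x then w i else 0) =
                sp (Wt (T (ρ x))) ∪ Fu w m.1 := by
              rw [h1]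
              ext i
              have h3 := hwv i
              rw [Finset.mem_union, mem_sp, mem_sp]
              by_cases hi : i ∈ Fu w m.1
              · simp only [hi, or_true, iff_true, ↓reduceIte]
                exact (mem_Fu.1 hi).2
              · simp only [hi, or_false, if_false]
                by_cases hρ : ρ i = ρ x
                · rw [if_pos hρ, if_pos hρ]
                  by_cases hix : i = x
                  · rw [hix] at h3 ⊢
                    omega
                  · rw [hout i hi hix, zero_add] at h3
                    rw [h3]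
                · rw [if_neg hρ, if_neg hρ]
            rw [h4, Finset.card_union_of_disjoint, h2, hF, Multiset.card_cons]
            · ring
            · rw [h1, Finset.disjoint_left]
              intro i hi1 hi2
              rw [mem_sp] at hi1
              have h3 := hwv i
              have := (mem_Fu.1 hi2).1
              apply hi1
              split_ifs <;> omega
          · rw [Function.update_of_ne hj]
            obtain ⟨h1, h2⟩ := hT j
            refine ⟨?_, h2⟩
            rw [h1]
            funext i
            have h3 := hwv i
            beta_reduce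
            by_cases hi : i ∈ Fu w m.1
            · rw [if_pos hi, if_neg (Ne.symm hj)]
              have := (mem_Fu.1 hi).1
              split_ifs <;> omega
            · rw [if_neg hi]
              by_cases hρ : ρ i = j
              · rw [if_pos hρ, if_pos hρ]
                have hix : i ≠ x := by
                  rintro rfl
                  exact hj hρ.symm
                rw [hout i hi hix, zero_add] at h3
                exact h3
              · rw [if_neg hρ, if_neg hρ]
        · rw [Finset.sum_update_of_mem (Finset.mem_univ _), ← Multiset.singleton_add, ← Multiset.singleton_add,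
            add_assoc, hS', ← Finset.add_sum_erase _ _ (Finset.mem_univ (ρ x))]
          rw [Finset.sdiff_singleton_eq_erase]

theorem main : S_GRP := by
  intro ι _ _ d r q w S hr hq hw hc
  exact main_aux S.card q w S hq rfl hw hc

end Pool.Agent.Helper52.PQ.GRP
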