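import Pool.Agent.Helper42.PQ.Spec
import Pool.Agent.Helper42.PQ.Base

/-!
# PQ, part INF: infeasible steps
-/

set_option autoImplicit false
set_option linter.unusedSectionVars false

namespace Pool.Agent.Helper52.PQ.INF

open Finset Pool.Agent.Helper42.PQ

variable {ι : Type} [Fintype ι] [DecidableEq ι] {d r q : ℕ} {w : ι → ℕ}

/-! ## swapping variables of the same weight -/

lemma w_swap {v v' : ι} (h : w v = w v') (i : ι) : w (Equiv.swap v v' i) = w i := by
  by_cases h1 : i = v
  · rw [h1, Equiv.swap_apply_left, h]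
  · by_cases h2 : i = v'
    · rw [h2, Equiv.swap_apply_right, h]
    · rw [Equiv.swap_apply_of_ne_of_ne h1 h2]

lemma NG_swap {ρ : ι → Fin q} (hN : NG w r d ρ) {v v' : ι} (h : w v = w v') :
    NG w r d (fun i => ρ (Equiv.swap v v' i)) := by
  intro j
  obtain ⟨t, h1, h2, h3⟩ := hN j
  have key : ∀ i, i ∈ cls w (fun i => ρ (Equiv.swap v v' i)) j ↔
      Equiv.swap v v' i ∈ cls w ρ j := by
    intro i
    rw [mem_cls, mem_cls, w_swap h]
  refine ⟨t, h1, ?_, ?_⟩
  · rw [← h2]
    exact Finset.card_equiv (Equiv.swap v v') key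
  · rw [← h3]
    unfold sg
    exact Finset.sum_equiv (Equiv.swap v v') key (fun i _ => (w_swap h i).symm)

lemma TwoOn_swap (ρ : ι → Fin q) (v v' : ι) :
    TwoOn {v | w v ≠ 0} (ρ v) (ρ v') ρ (fun i => ρ (Equiv.swap v v' i)) := by
  intro i _
  constructor
  · intro h1 h2
    show ρ (Equiv.swap v v' i) = ρ i
    rw [Equiv.swap_apply_of_ne_of_ne]
    · rintro rfl; exact h1 rfl
    · rintro rfl; exact h2 rfl
  · intro h1
    show ρ (Equiv.swap v v' i) = ρ v ∨ ρ (Equiv.swap v v' i) = ρ v'
    by_cases h2 : i = v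
    · rw [h2, Equiv.swap_apply_left]; exact Or.inr rfl
    · by_cases h3 : i = v'
      · rw [h3, Equiv.swap_apply_right]; exact Or.inl rfl
      · rw [Equiv.swap_apply_of_ne_of_ne h2 h3]; exact h1

/-- weight-two variables in the classes `C` -/
def X2 (w : ι → ℕ) (ρ : ι → Fin q) (C : Finset (Fin q)) : Finset ι :=
  univ.filter fun v => w v = 2 ∧ ρ v ∈ C

lemma mem_X2 {ρ : ι → Fin q} {C : Finset (Fin q)} {v : ι} :
    v ∈ X2 w ρ C ↔ w v = 2 ∧ ρ v ∈ C := by simp [X2]

lemma swap_all (hTWO : S_TWO) (hREAL : S_REAL) {k : ℕ} (hr : 2 ≤ r) (hd : r + 1 ≤ d) (hq : 3 ≤ q)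
    (hw : ∑ i, w i = k * d)
    (hk : ∀ k' < k, ∀ w' : ι → ℕ, ∑ i, w' i = k' * d → Conn ι d (r + 1) k' w')
    (S : Multiset (G ι d (r + 1))) (C : Finset (Fin q)) (M : Finset ι) (hM : ∀ v ∈ M, w v = 2)
    (n : ℕ) : ∀ ρ : ι → Fin q, (M \ X2 w ρ C).card = n → NG w r d ρ →
      (∀ S', Cf w ρ S' → Cn S S') → M.card ≤ (X2 w ρ C).card →
      ∃ ρ' : ι → Fin q, NG w r d ρ' ∧ (∀ S', Cf w ρ' S' → Cn S S') ∧ M ⊆ X2 w ρ' C := by
  induction n with
  | zero =>
    intro ρ h0 h1 h2 _
    rw [Finset.card_eq_zero, Finset.sdiff_eq_empty_iff_subset] at h0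
    exact ⟨ρ, h1, h2, h0⟩
  | succ n ih =>
    intro ρ h0 h1 h2 h3
    obtain ⟨v', hv'⟩ : (M \ X2 w ρ C).Nonempty := by
      rw [← Finset.card_pos, h0]; omega
    rw [Finset.mem_sdiff] at hv'
    have h4 : ¬ X2 w ρ C ⊆ M := by
      intro h4
      have h5 := Finset.card_sdiff_of_subset h4
      rw [h0] at h5
      omega
    obtain ⟨v, hv, hvM⟩ := Finset.not_subset.1 h4
    have hww : w v = w v' := by rw [(mem_X2.1 hv).1, hM v' hv'.1]
    have hX : ∀ i, i ∈ X2 w (fun i => ρ (Equiv.swap v v' i)) C ↔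
        Equiv.swap v v' i ∈ X2 w ρ C := by
      intro i
      rw [mem_X2, mem_X2, w_swap hww]
    apply ih (fun i => ρ (Equiv.swap v v' i))
    · have h5 : M \ X2 w (fun i => ρ (Equiv.swap v v' i)) C = (M \ X2 w ρ C).erase v' := by
        ext i
        rw [Finset.mem_erase, Finset.mem_sdiff, Finset.mem_sdiff, hX]
        constructor
        · rintro ⟨h5, h6⟩
          have h7 : i ≠ v := by rintro rfl; exact hvM h5
          have h8 : i ≠ v' := by
            rintro rfl
            rw [Equiv.swap_apply_right] at h6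
            exact h6 hv
          rw [Equiv.swap_apply_of_ne_of_ne h7 h8] at h6
          exact ⟨h8, h5, h6⟩
        · rintro ⟨h8, h5, h6⟩
          have h7 : i ≠ v := by rintro rfl; exact hvM h5
          rw [Equiv.swap_apply_of_ne_of_ne h7 h8]
          exact ⟨h5, h6⟩
      rw [h5, Finset.card_erase_of_mem (Finset.mem_sdiff.2 hv'), h0]
      rfl
    · exact NG_swap h1 hww
    · intro S'' hS''
      obtain ⟨S', hS'⟩ := hREAL ι d r q w ρ hr hd h1
      exact (h2 S' hS').trans (hTWO ι d r q k w ρ _ (ρ v) (ρ v') S' S'' hr hd hq hw hk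
        (TwoOn_swap ρ v v') hS' hS'')
    · refine le_trans h3 (le_of_eq ?_)
      exact (Finset.card_equiv (Equiv.swap v v') hX).symm

/-! ## replacing some classes -/

lemma sum_C (ρ : ι → Fin q) (T : Fin q → Multiset (G ι d (r + 1))) (hT : Grp w ρ T)
    (C : Finset (Fin q)) : Wt (∑ j ∈ C, T j) = fun i => if ρ i ∈ C then w i else 0 := by
  rw [Pool.Agent.Helper42.PQ.Wt_sum]
  funext i
  rw [Finset.sum_apply]
  have e : ∀ j, Wt (T j) i = if ρ i = j then w i else 0 := fun j => by rw [(hT j).1]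
  simp only [e]
  rw [Finset.sum_ite_eq]

lemma repl (ρ : ι → Fin q) (T : Fin q → Multiset (G ι d (r + 1))) (hT : Grp w ρ T)
    (C : Finset (Fin q)) (m : G ι d (r + 1)) (U : Multiset (G ι d (r + 1)))
    (hU : Wt (m ::ₘ U) = fun i => if ρ i ∈ C then w i else 0) (hd : 1 ≤ d)
    (hconn : Conn ι d (r + 1) (∑ j ∈ C, (T j).card) (fun i => if ρ i ∈ C then w i else 0)) :
    ∃ S', m ∈ S' ∧ Cn (∑ j, T j) S' := by
  refine ⟨(m ::ₘ U) + ∑ j ∈ univ \ C, T j, ?_, ?_⟩
  · exact Multiset.mem_add.2 (Or.inl (Multiset.mem_cons_self _ _))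
  · have h1 : ∑ j, T j = ∑ j ∈ C, T j + ∑ j ∈ univ \ C, T j :=
      (Finset.sum_sdiff (Finset.subset_univ C)).symm.trans (add_comm _ _)
    rw [h1]
    apply Cn.add
    have h2 := sum_C ρ T hT C
    apply hconn
    · exact map_sum Multiset.cardHom _ _
    · rw [card_eq_of_Wt hd (hU.trans h2.symm)]
      exact map_sum Multiset.cardHom _ _
    · exact h2
    · exact hU

/-! ## the generator -/

lemma Can_count (m : G ι d (r + 1)) (hm : Can w m) :
    (univ.filter fun v => m.1 v = 1).card + 2 * (univ.filter fun v => m.1 v = 2).card = d ∧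
    (univ.filter fun v => m.1 v = 1).card + (univ.filter fun v => m.1 v = 2).card =
      (sp m.1).card := by
  constructor
  · have h1 : ∑ v, m.1 v = ∑ v, ((if m.1 v = 1 then 1 else 0) + 2 * (if m.1 v = 2 then 1 else 0)) := by
      apply Finset.sum_congr rfl
      intro v _
      have := (hm v).1
      split_ifs <;> omega
    rw [m.2.1, Finset.sum_add_distrib, ← Finset.mul_sum, ← Finset.card_filter,
      ← Finset.card_filter] at h1
    exact h1.symm
  · rw [← Finset.card_union_of_disjoint]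
    · congr 1
      ext v
      have := (hm v).1
      rw [mem_sp, Finset.mem_union, Finset.mem_filter, Finset.mem_filter]
      simp only [Finset.mem_univ, true_and]
      omega
    · rw [Finset.disjoint_left]
      intro v h1 h2
      rw [Finset.mem_filter] at h1 h2
      omega

/-- the final step, once the support of `m` lies in the classes `C` -/
lemma final (hL : S_L) {k : ℕ} (hr : 2 ≤ r) (hd : r + 1 ≤ d)
    (hw : ∑ i, w i = k * d)
    (hk : ∀ k' < k, ∀ w' : ι → ℕ, ∑ i, w' i = k' * d → Conn ι d (r + 1) k' w')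
    (ρ : ι → Fin q) (T : Fin q → Multiset (G ι d (r + 1))) (hT : Grp w ρ T)
    (C : Finset (Fin q)) (c : Fin q) (hc : c ∉ C) (m : G ι d (r + 1)) (hm : Can w m)
    (hC : sp m.1 ⊆ X2 w ρ C) (h1 : 2 ≤ ∑ j ∈ C, (T j).card)
    (h2 : r + C.card ≤ (univ.filter fun v => m.1 v = 2).card + 1) :
    ∃ S', m ∈ S' ∧ Cn (∑ j, T j) S' := by
  have hsum := sum_C ρ T hT C
  set wC : ι → ℕ := fun i => if ρ i ∈ C then w i else 0 with hwC
  have hcardC : (∑ j ∈ C, T j).card = ∑ j ∈ C, (T j).card := map_sum Multiset.cardHom _ _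
  have htot : ∑ i, wC i = (∑ j ∈ C, (T j).card) * d := by
    rw [← hsum, sum_Wt, hcardC]
  have hle : ∀ i, m.1 i ≤ wC i := by
    intro i
    by_cases hi : m.1 i = 0
    · omega
    · have h3 := mem_X2.1 (hC (mem_sp.2 hi))
      have h4 := (hm i).1
      rw [hwC]
      show m.1 i ≤ if ρ i ∈ C then w i else 0
      rw [if_pos h3.2, h3.1]
      exact h4
  -- the number of blocks
  have hkk : (∑ j ∈ C, (T j).card) < k := by
    have h3 : (∑ j ∈ C, (T j).card) + (T c).card ≤ ∑ j, (T j).card := by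
      rw [add_comm, ← Finset.sum_insert (f := fun j => (T j).card) hc]
      exact Finset.sum_le_sum_of_subset (Finset.subset_univ _)
    have h4 : 1 ≤ (T c).card := by
      have h5 := (hT c).2
      by_contra h6
      have h7 : (T c).card = 0 := by omega
      rw [Multiset.card_eq_zero] at h7
      rw [h7, Wt_zero] at h5
      simp [sp] at h5
    have h5 : ∑ j, (T j).card = k := by
      have h6 : (∑ j, T j).card = k := card_of_Wt (by omega) hT.Wt_sum hw
      rw [← h6]
      exact (map_sum Multiset.cardHom _ _).symm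
    omega
  obtain ⟨t, ht⟩ : ∃ t, ∑ j ∈ C, (T j).card = t + 1 := ⟨(∑ j ∈ C, (T j).card) - 1, by omega⟩
  have hsub : ∑ i, (wC - m.1) i = t * d := by
    have h3 := sum_sub_of_le wC m.1 hle
    rw [m.2.1, htot, ht] at h3
    have : (t + 1) * d = t * d + d := by ring
    omega
  have hspC : (sp wC).card = (∑ j ∈ C, (T j).card) * r + C.card := by
    have h3 : sp wC = C.biUnion fun j => cls w ρ j := by
      ext i
      rw [mem_sp, Finset.mem_biUnion, hwC]
      show (if ρ i ∈ C then w i else 0) ≠ 0 ↔ _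
      constructor
      · intro h
        by_cases h4 : ρ i ∈ C
        · rw [if_pos h4] at h
          exact ⟨ρ i, h4, mem_cls.2 ⟨h, rfl⟩⟩
        · rw [if_neg h4] at h
          exact absurd rfl h
      · rintro ⟨j, hj, hi⟩
        rw [mem_cls] at hi
        rw [hi.2, if_pos hj]
        exact hi.1
    rw [h3, Finset.card_biUnion]
    · have h4 : ∀ j ∈ C, (cls w ρ j).card = (T j).card * r + 1 := by
        intro j _
        rw [← (hT j).2, (hT j).1, sp_class]
      rw [Finset.sum_congr rfl h4, Finset.sum_add_distrib, Finset.sum_mul]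
      simp
    · intro j _ j' _ hjj
      show Disjoint (cls w ρ j) (cls w ρ j')
      rw [Finset.disjoint_left]
      intro i hi hi'
      rw [mem_cls] at hi hi'
      exact hjj (hi.2.symm.trans hi'.2)
  have hsp : (sp (wC - m.1)).card ≤ t * r + 1 := by
    have h3 : sp (wC - m.1) ⊆ sp wC \ (univ.filter fun v => m.1 v = 2) := by
      intro i hi
      rw [mem_sp] at hi
      have hi' : wC i - m.1 i ≠ 0 := hi
      rw [Finset.mem_sdiff, mem_sp]
      refine ⟨by omega, fun h4 => ?_⟩
      rw [Finset.mem_filter] at h4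
      have h5 := mem_X2.1 (hC (mem_sp.2 (show m.1 i ≠ 0 by omega)))
      have h6 : wC i = 2 := by
        rw [hwC]
        show (if ρ i ∈ C then w i else 0) = 2
        rw [if_pos h5.2, h5.1]
      omega
    have h4 : (univ.filter fun v => m.1 v = 2) ⊆ sp wC := by
      intro i hi
      rw [Finset.mem_filter] at hi
      rw [mem_sp]
      have := hle i
      omega
    have h5 := Finset.card_le_card h3
    rw [Finset.card_sdiff_of_subset h4, hspC, ht] at h5
    have h6 : (t + 1) * r = t * r + r := by ring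
    omega
  obtain ⟨U, hU1, hU2⟩ := (hL ι d r t (wC - m.1) hr hd hsub hsp).2 (by omega)
  apply repl ρ T hT C m U _ (by omega)
  · exact hk _ hkk _ htot
  · rw [Wt_cons, hU2]
    funext i
    have := hle i
    show m.1 i + (wC i - m.1 i) = wC i
    omega

/-! ## the count -/

lemma heavy_sum (ρ : ι → Fin q) (hN : NG w r d ρ) (hd : r + 2 ≤ d)
    (κ : {v : ι // 2 ≤ w v} → Fin q) (j : Fin q)
    (hκ : ∀ v, κ v = j ↔ ρ v.1 = j) :
    (Finset.univ.filter (fun v => κ v = j)).card ≤
      ((∑ v ∈ Finset.univ.filter (fun v => κ v = j), (w v.1 - 1)) + 1) / (d - r) * r + 1 := by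
  obtain ⟨t, h1, h2, h3⟩ := hN j
  have himg : (Finset.univ.filter (fun v => κ v = j)).map (Function.Embedding.subtype _) ⊆
      cls w ρ j := by
    intro i hi
    rw [Finset.mem_map] at hi
    obtain ⟨v, hv, rfl⟩ := hi
    rw [Finset.mem_filter] at hv
    rw [mem_cls]
    have := v.2
    exact ⟨by show w v.1 ≠ 0; omega, (hκ v).1 hv.2⟩
  have hsum : ∑ v ∈ Finset.univ.filter (fun v => κ v = j), (w v.1 - 1) =
      ∑ i ∈ cls w ρ j, (w i - 1) := by
    have e : ∑ v ∈ Finset.univ.filter (fun v => κ v = j), (w v.1 - 1) =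
        ∑ i ∈ (Finset.univ.filter (fun v => κ v = j)).map (Function.Embedding.subtype _),
          (w i - 1) := by
      rw [Finset.sum_map]
      rfl
    rw [e]
    apply Finset.sum_subset himg
    intro i hi hi'
    rw [mem_cls] at hi
    by_contra h4
    apply hi'
    rw [Finset.mem_map]
    have h5 : 2 ≤ w i := by omega
    refine ⟨⟨i, h5⟩, ?_, rfl⟩
    rw [Finset.mem_filter]
    exact ⟨Finset.mem_univ _, (hκ ⟨i, h5⟩).2 hi.2⟩
  have hsum2 : ∑ i ∈ cls w ρ j, (w i - 1) + (t * r + 1) = t * d := by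
    rw [← h2, ← h3, Finset.card_eq_sum_ones, ← Finset.sum_add_distrib]
    unfold sg
    apply Finset.sum_congr rfl
    intro i hi
    rw [mem_cls] at hi
    omega
  have h4 : (∑ v ∈ Finset.univ.filter (fun v => κ v = j), (w v.1 - 1)) + 1 = t * (d - r) := by
    rw [hsum, Nat.mul_sub]
    omega
  rw [h4, Nat.mul_div_cancel _ (by omega), ← h2]
  have h5 := Finset.card_le_card himg
  rwa [Finset.card_map] at h5

lemma arith (r d t p F n2 : ℕ) (hr : 2 ≤ r) (hd : r + 2 ≤ d) (hd' : d ≤ 2 * r + 2)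
    (hF : F + 1 = t * (d - r)) (hp : t * r + 2 ≤ p) (h1 : p ≤ F) (h2 : 2 * p ≤ F + n2) :
    (d = 2 * r + 2 ∧ r + 1 ≤ n2) ∨ (d = 2 * r + 1 ∧ 2 * r + 2 ≤ n2) := by
  rcases (by omega : d ≤ 2 * r ∨ d = 2 * r + 1 ∨ d = 2 * r + 2) with h | h | h
  · exfalso
    have : t * (d - r) ≤ t * r := Nat.mul_le_mul_left _ (by omega)
    omega
  · right
    refine ⟨h, ?_⟩
    have e : d - r = r + 1 := by omega
    rw [e] at hF
    have e2 : t * (r + 1) = t * r + t := by ring
    have h3 : 3 ≤ t := by omega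
    obtain ⟨r', rfl⟩ : ∃ r', r = r' + 1 := ⟨r - 1, by omega⟩
    have h4 : 3 * r' ≤ t * r' := Nat.mul_le_mul_right _ h3
    have e3 : t * (r' + 1) = t * r' + t := by ring
    have e4 : t * (r' + 1 + 1) = t * r' + 2 * t := by ring
    omega
  · left
    refine ⟨h, ?_⟩
    have e : d - r = r + 2 := by omega
    rw [e] at hF
    have e2 : t * (r + 2) = t * r + 2 * t := by ring
    have h3 : 2 ≤ t := by omega
    obtain ⟨r', rfl⟩ : ∃ r', r = r' + 2 := ⟨r - 2, by omega⟩
    have h4 : 2 * r' ≤ t * r' := Nat.mul_le_mul_right _ h3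
    have e3 : t * (r' + 2) = t * r' + 2 * t := by ring
    have e4 : t * (r' + 2 + 2) = t * r' + 4 * t := by ring
    omega

/-- the step for a given set of classes -/
lemma go (hL : S_L) (hTWO : S_TWO) (hREAL : S_REAL) {k : ℕ} (hr : 2 ≤ r) (hd : r + 1 ≤ d)
    (hq : 3 ≤ q) (hw : ∑ i, w i = k * d)
    (hk : ∀ k' < k, ∀ w' : ι → ℕ, ∑ i, w' i = k' * d → Conn ι d (r + 1) k' w')
    (ρ : ι → Fin q) (hN : NG w r d ρ) (C : Finset (Fin q)) (hC2 : C.card ≤ 2)
    (m : G ι d (r + 1)) (hm : Can w m) (hcard : (sp m.1).card ≤ (X2 w ρ C).card)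
    (h1 : ∀ (ρ' : ι → Fin q) (T : Fin q → Multiset (G ι d (r + 1))), Grp w ρ' T →
      sp m.1 ⊆ X2 w ρ' C → 2 ≤ ∑ j ∈ C, (T j).card)
    (h2 : r + C.card ≤ (univ.filter fun v => m.1 v = 2).card + 1)
    (S : Multiset (G ι d (r + 1))) (hS : Cf w ρ S) : ∃ S', m ∈ S' ∧ Cn S S' := by
  have hS0 : ∀ S', Cf w ρ S' → Cn S S' := by
    intro S' hS'
    obtain ⟨a⟩ : Nonempty (Fin q) := ⟨⟨0, by omega⟩⟩
    refine hTWO ι d r q k w ρ ρ a a S S' hr hd hq hw hk ?_ hS hS'
    intro v _
    exact ⟨fun _ _ => rfl, fun h => h⟩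
  have hM : ∀ v ∈ sp m.1, w v = 2 := by
    intro v hv
    exact (hm v).2 (mem_sp.1 hv)
  obtain ⟨ρ', h3, h4, h5⟩ := swap_all hTWO hREAL hr hd hq hw hk S C (sp m.1) hM _ ρ rfl hN hS0 hcard
  obtain ⟨S'', hS''⟩ := hREAL ι d r q w ρ' hr hd h3
  obtain ⟨T, hT, hST⟩ := hS''
  obtain ⟨c, hc⟩ : ∃ c : Fin q, c ∉ C := by
    by_contra h6
    push Not at h6
    have : (univ : Finset (Fin q)).card ≤ C.card :=
      Finset.card_le_card (fun c _ => h6 c)
    rw [Finset.card_univ, Fintype.card_fin] at this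
    omega
  obtain ⟨S', h6, h7⟩ := final hL hr hd hw hk ρ' T hT C c hc m hm h5 (h1 ρ' T hT h5) h2
  refine ⟨S', h6, (h4 S'' ⟨T, hT, hST⟩).trans ?_⟩
  rw [hST]
  exact h7

lemma T_pos {ρ : ι → Fin q} {T : Fin q → Multiset (G ι d (r + 1))} (hT : Grp w ρ T) (j : Fin q) :
    1 ≤ (T j).card := by
  have h5 := (hT j).2
  by_contra h6
  have h7 : (T j).card = 0 := by omega
  rw [Multiset.card_eq_zero] at h7
  rw [h7, Wt_zero] at h5
  simp [sp] at h5

theorem main (hL : S_L) (hTWO : S_TWO) (hREAL : S_REAL) : S_INF := by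
  intro ι _ _ d r q k w ρ κ a b hr hd hd' hq hw hk hN hDv hTw hF
  have hTw' : ∀ v : {v : ι // 2 ≤ w v}, (ρ v.1 ≠ a → ρ v.1 ≠ b → κ v = ρ v.1) ∧
      ((ρ v.1 = a ∨ ρ v.1 = b) → κ v = a ∨ κ v = b) := fun v => hTw v (Set.mem_univ _)
  unfold Fea at hF
  push Not at hF
  obtain ⟨j, hj⟩ := hF
  have hjab : j = a ∨ j = b := by
    by_contra hc
    rw [not_or] at hc
    have := heavy_sum ρ hN hd κ j (by
      intro v
      have h := hTw' v
      constructor
      · intro h1
        by_cases h2 : ρ v.1 = a ∨ ρ v.1 = b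
        · rcases h.2 h2 with h3 | h3
          · exact absurd (h1.symm.trans h3) hc.1
          · exact absurd (h1.symm.trans h3) hc.2
        · rw [not_or] at h2
          rw [← h.1 h2.1 h2.2]
          exact h1
      · intro h1
        rw [h.1 (by rw [h1]; exact hc.1) (by rw [h1]; exact hc.2)]
        exact h1)
    omega
  have hab : a ≠ b := by
    intro hab
    subst hab
    have hja : j = a := by rcases hjab with h | h <;> exact h
    subst hja
    have := heavy_sum ρ hN hd κ j (by
      intro v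
      have h := hTw' v
      constructor
      · intro h1
        by_contra h2
        rw [h.1 h2 h2] at h1
        exact h2 h1
      · intro h1
        rcases h.2 (Or.inl h1) with h3 | h3 <;> exact h3)
    omega
  -- the count
  have hF1 : ∑ v ∈ Finset.univ.filter (fun v => κ v = j), (w v.1 - 1) + 1 =
      ((∑ v ∈ Finset.univ.filter (fun v => κ v = j), (w v.1 - 1)) + 1) / (d - r) * (d - r) :=
    (Nat.div_mul_cancel (hDv j)).symm
  have hF2 : (Finset.univ.filter (fun v => κ v = j)).card ≤
      ∑ v ∈ Finset.univ.filter (fun v => κ v = j), (w v.1 - 1) := by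
    rw [Finset.card_eq_sum_ones]
    apply Finset.sum_le_sum
    intro v _
    have := v.2
    omega
  have hF3 : 2 * (Finset.univ.filter (fun v => κ v = j)).card ≤
      ∑ v ∈ Finset.univ.filter (fun v => κ v = j), (w v.1 - 1) +
        ((Finset.univ.filter (fun v => κ v = j)).filter fun v => w v.1 = 2).card := by
    rw [Finset.card_filter (fun v : {v : ι // 2 ≤ w v} => w v.1 = 2) (Finset.univ.filter (fun v => κ v = j)),
      ← Finset.sum_add_distrib, Finset.card_eq_sum_ones, Finset.mul_sum]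
    apply Finset.sum_le_sum
    intro v _
    have := v.2
    split_ifs <;> omega
  have hF4 : ((Finset.univ.filter (fun v => κ v = j)).filter fun v => w v.1 = 2).card ≤
      (X2 w ρ {a, b}).card := by
    rw [← Finset.card_map (Function.Embedding.subtype _)]
    apply Finset.card_le_card
    intro i hi
    rw [Finset.mem_map] at hi
    obtain ⟨v, hv, rfl⟩ := hi
    rw [Finset.mem_filter, Finset.mem_filter] at hv
    rw [mem_X2]
    refine ⟨hv.2, ?_⟩
    rw [Finset.mem_insert, Finset.mem_singleton]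
    by_contra h1
    rw [not_or] at h1
    have h2 := (hTw' v).1 h1.1 h1.2
    rw [hv.1.2] at h2
    rcases hjab with h3 | h3
    · exact h1.1 (h2.symm.trans h3)
    · exact h1.2 (h2.symm.trans h3)
  have har := arith r d _ _ _ _ hr hd hd' hF1 (by omega) hF2 hF3
  rcases har with ⟨hdd, hn⟩ | ⟨hdd, hn⟩
  · -- d = 2 r + 2
    have hX : r + 1 ≤ (X2 w ρ {a, b}).card := le_trans hn hF4
    constructor
    · obtain ⟨Y, hY, hYc⟩ := Finset.exists_subset_card_eq hX
      obtain ⟨g, hg⟩ := mkG (ι := ι) (d := d) (s := r + 1) (fun i => if i ∈ Y then 2 else 0)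
        (by
          rw [Finset.sum_ite_mem, Finset.univ_inter, Finset.sum_const, hYc, hdd, smul_eq_mul]
          ring) Y (by omega)
        (fun i hi => if_neg hi)
      refine ⟨g, fun v => ?_⟩
      rw [hg]
      show (if v ∈ Y then 2 else 0) ≤ 2 ∧ ((if v ∈ Y then 2 else 0) ≠ 0 → w v = 2)
      by_cases hv : v ∈ Y
      · rw [if_pos hv]
        exact ⟨le_rfl, fun _ => (mem_X2.1 (hY hv)).1⟩
      · rw [if_neg hv]
        exact ⟨by omega, fun h => absurd rfl h⟩
    · intro m hm S hS
      obtain ⟨h1, h2⟩ := Can_count m hm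
      have h3 : (sp m.1).card ≤ r + 1 := card_sp_le m
      have hab2 : ({a, b} : Finset (Fin q)).card = 2 := Finset.card_pair hab
      apply go hL hTWO hREAL hr (by omega) hq hw hk ρ hN {a, b} hab2.le m hm (by omega) _
        (by omega) S hS
      intro ρ' T hT _
      rw [Finset.sum_pair hab]
      have := T_pos hT a
      have := T_pos hT b
      omega
  · -- d = 2 r + 1
    have hX : 2 * r + 2 ≤ (X2 w ρ {a, b}).card := le_trans hn hF4
    constructor
    · obtain ⟨Y, hY, hYc⟩ := Finset.exists_subset_card_eq (show r + 1 ≤ (X2 w ρ {a, b}).card by omega)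
      obtain ⟨x, hx⟩ : Y.Nonempty := by rw [← Finset.card_pos]; omega
      obtain ⟨g, hg⟩ := mkG (ι := ι) (d := d) (s := r + 1)
        (fun i => if i = x then 1 else if i ∈ Y then 2 else 0)
        (by
          rw [← Finset.add_sum_erase _ _ (Finset.mem_univ x), if_pos rfl]
          have e : ∑ i ∈ univ.erase x, (if i = x then 1 else if i ∈ Y then 2 else 0) =
              ∑ i ∈ Y.erase x, 2 := by
            rw [← Finset.sum_subset (Finset.erase_subset_erase x (Finset.subset_univ Y))]
            · apply Finset.sum_congr rfl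
              intro i hi
              rw [Finset.mem_erase] at hi
              rw [if_neg hi.1, if_pos hi.2]
            · intro i hi hi'
              rw [Finset.mem_erase] at hi hi'
              rw [if_neg hi.1, if_neg (fun h => hi' ⟨hi.1, h⟩)]
          rw [e, Finset.sum_const, Finset.card_erase_of_mem hx, hYc, hdd, smul_eq_mul]
          omega) Y (by omega)
        (fun i hi => by
          have : i ≠ x := fun h => hi (h ▸ hx)
          show (if i = x then 1 else if i ∈ Y then 2 else 0) = 0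
          rw [if_neg this, if_neg hi])
      refine ⟨g, fun v => ?_⟩
      rw [hg]
      show (if v = x then 1 else if v ∈ Y then 2 else 0) ≤ 2 ∧
        ((if v = x then 1 else if v ∈ Y then 2 else 0) ≠ 0 → w v = 2)
      by_cases hvx : v = x
      · rw [if_pos hvx]
        refine ⟨by omega, fun _ => ?_⟩
        rw [hvx]
        exact (mem_X2.1 (hY hx)).1
      · rw [if_neg hvx]
        by_cases hv : v ∈ Y
        · rw [if_pos hv]
          exact ⟨le_rfl, fun _ => (mem_X2.1 (hY hv)).1⟩
        · rw [if_neg hv]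
          exact ⟨by omega, fun h => absurd rfl h⟩
    · intro m hm S hS
      obtain ⟨h1, h2⟩ := Can_count m hm
      have h3 : (sp m.1).card ≤ r + 1 := card_sp_le m
      have hc : ∃ c : Fin q, r + 1 ≤ (X2 w ρ {c}).card := by
        by_contra hcon
        push Not at hcon
        have h4 : X2 w ρ {a, b} ⊆ X2 w ρ {a} ∪ X2 w ρ {b} := by
          intro i hi
          rw [mem_X2, Finset.mem_insert, Finset.mem_singleton] at hi
          rw [Finset.mem_union, mem_X2, mem_X2, Finset.mem_singleton, Finset.mem_singleton]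
          rcases hi.2 with h | h
          · exact Or.inl ⟨hi.1, h⟩
          · exact Or.inr ⟨hi.1, h⟩
        have h5 := (Finset.card_le_card h4).trans (Finset.card_union_le _ _)
        have h6 := hcon a
        have h7 := hcon b
        omega
      obtain ⟨c, hc⟩ := hc
      have hc1 : ({c} : Finset (Fin q)).card = 1 := Finset.card_singleton c
      apply go hL hTWO hREAL hr (by omega) hq hw hk ρ hN {c} (by omega) m hm (by omega) _
        (by omega) S hS
      intro ρ' T hT hsub
      rw [Finset.sum_singleton]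
      have h4 := T_pos hT c
      by_contra h5
      have h6 : (T c).card = 1 := by omega
      obtain ⟨h7, h8⟩ := hT c
      have h9 : (cls w ρ' c).card = r + 1 := by
        rw [← sp_class, ← h7, h8, h6]
        ring
      have h10 : sg w (cls w ρ' c) = d := by
        rw [← sum_class, ← h7, sum_Wt, h6]
        ring
      have h11 : sp m.1 ⊆ cls w ρ' c := by
        intro i hi
        have h12 := mem_X2.1 (hsub hi)
        rw [mem_cls]
        rw [Finset.mem_singleton] at h12
        exact ⟨by omega, h12.2⟩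
      have h12 : sp m.1 = cls w ρ' c := Finset.eq_of_subset_of_card_le h11 (by omega)
      have h13 : sg w (cls w ρ' c) = (cls w ρ' c).card * 2 := by
        unfold sg
        rw [Finset.sum_const_nat]
        intro i hi
        rw [← h12] at hi
        exact (hm i).2 (mem_sp.1 hi)
      omega

end Pool.Agent.Helper52.PQ.INF
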